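import Pool.Agent.H222Z.ES.Stm

set_option autoImplicit false

/-! Reduction of the anti-concentration statement to the two finite theorems. -/

namespace Pool.Agent.H325Z.ES

open MeasureTheory ProbabilityTheory Filter Topology Polynomial Pool.Agent.H222Z.ES

/-- elementary symmetric polynomial of the first `n` terms -/
noncomputable def ek (z : ℕ → ℂ) (n k : ℕ) : ℂ :=
  ∑ s ∈ (Finset.range n).powersetCard k, ∏ i ∈ s, z i

lemma coeff_prod_eq (z : ℕ → ℂ) (n k : ℕ) :
    (∏ i ∈ Finset.range n, (1 + C (z i) * X)).coeff k = ek z n k := by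
  rw [Finset.prod_one_add, finsetSum_coeff, ek, Finset.powersetCard_eq_filter, Finset.sum_filter]
  refine Finset.sum_congr rfl fun t _ => ?_
  rw [Finset.prod_mul_distrib, Finset.prod_const, ← map_prod, coeff_C_mul, coeff_X_pow]
  by_cases h : t.card = k
  · simp [h]
  · rw [if_neg h, if_neg (Ne.symm h), mul_zero]

lemma E_eq_sum {A : Type} [Fintype A] [DecidableEq A] (w : A → ℝ) (ψ : Multiset A → ℝ) (n : ℕ) :
    ∀ s : Multiset A, E w n ψ s =
      ∑ x : Fin n → A, (∏ i, w (x i)) * ψ ((List.ofFn x : Multiset A) + s) := by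
  induction n with
  | zero => intro s; simp
  | succ n ih =>
    intro s
    rw [E_succ, ← (Fin.consEquiv (fun _ : Fin (n + 1) => A)).sum_comp, Fintype.sum_prod_type]
    refine Finset.sum_congr rfl fun a _ => ?_
    rw [ih, Finset.mul_sum]
    refine Finset.sum_congr rfl fun x _ => ?_
    have e : (Fin.consEquiv (fun _ : Fin (n + 1) => A)) (a, x) = Fin.cons a x := rfl
    rw [e, Fin.prod_univ_succ, List.ofFn_succ]
    simp only [Fin.cons_zero, Fin.cons_succ]
    rw [← Multiset.cons_coe, Multiset.cons_add, Multiset.add_cons, mul_assoc]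

lemma Qp_ofFn {A : Type} (y : A → ℂ) (g : ℕ → A) (n k : ℕ) :
    (Qp y ((List.ofFn fun i : Fin n => g i : List A) : Multiset A)).coeff k =
      ek (fun i => y (g i)) n k := by
  rw [← coeff_prod_eq, Qp, Multiset.map_coe, Multiset.prod_coe, List.map_ofFn, List.prod_ofFn,
    ← Fin.prod_univ_eq_prod_range (fun i => 1 + C (y (g i)) * X)]
  rfl

/-- the weights of a simple function -/
noncomputable def wt (μ : Measure ℂ) (g : SimpleFunc ℂ ℂ) (G : Set ℂ) (a : g.range) : ℝ :=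
  μ.real (G ∩ g ⁻¹' {a.1})

lemma wt_nonneg (μ : Measure ℂ) (g : SimpleFunc ℂ ℂ) (G : Set ℂ) (a : g.range) :
    0 ≤ wt μ g G a := measureReal_nonneg

lemma wt_sum (μ : Measure ℂ) [IsFiniteMeasure μ] (g : SimpleFunc ℂ ℂ) (G : Set ℂ) :
    ∑ a, wt μ g G a = μ.real G := by
  have h := sum_measureReal_preimage_singleton (μ := μ.restrict G) g.range (f := g)
    (fun y _ => g.measurableSet_fiber y) (fun _ _ => measure_ne_top _ _)
  have h2 : g ⁻¹' (g.range : Set ℂ) = Set.univ :=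
    Set.eq_univ_of_forall fun z => g.mem_range_self z
  rw [h2, measureReal_restrict_apply MeasurableSet.univ, Set.univ_inter] at h
  rw [← h, ← Finset.sum_coe_sort g.range]
  refine Finset.sum_congr rfl fun a _ => ?_
  rw [measureReal_restrict_apply (g.measurableSet_fiber _), Set.inter_comm]
  rfl

lemma transfer {Ω : Type} [MeasurableSpace Ω] (P : Measure Ω) [IsProbabilityMeasure P]
    (Y : ℕ → Ω → ℂ) (hm : ∀ i, Measurable (Y i)) (hi : iIndepFun Y P)
    (hd : ∀ i, IdentDistrib (Y i) (Y 0) P P) (g : SimpleFunc ℂ ℂ) (n k : ℕ) (c : ℝ) :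
    P {ω | ‖ek (fun i => g (Y i ω)) n k‖ < c} ≤ ENNReal.ofReal
      (E (wt (P.map (Y 0)) g Set.univ) n
        (fun s => ind (‖(Qp Subtype.val s).coeff k‖ < c)) 0) := by
  classical
  set μ := P.map (Y 0) with hμ
  let bad : (Fin n → g.range) → Prop := fun x =>
    ‖(Qp Subtype.val ((List.ofFn x : List g.range) : Multiset g.range)).coeff k‖ < c
  let ev : (Fin n → g.range) → Set Ω := fun x => ⋂ i : Fin n, Y i ⁻¹' (g ⁻¹' {(x i).1})
  have hsub : {ω | ‖ek (fun i => g (Y i ω)) n k‖ < c} ⊆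
      ⋃ x ∈ Finset.univ.filter bad, ev x := by
    intro ω hω
    simp only [Set.mem_iUnion, Finset.mem_filter, Finset.mem_univ, true_and]
    refine ⟨fun i => ⟨g (Y i ω), g.mem_range_self _⟩, ?_, ?_⟩
    · have := Qp_ofFn (A := g.range) Subtype.val (fun i => ⟨g (Y i ω), g.mem_range_self _⟩) n k
      simp only [bad]
      rw [this]
      exact hω
    · simp [ev]
  have hev : ∀ x, P (ev x) = ENNReal.ofReal (∏ i, wt μ g Set.univ (x i)) := by
    intro x
    have h1 : iIndepFun (fun i : Fin n => Y i) P := hi.precomp Fin.val_injective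
    rw [h1.meas_iInter (fun i => ⟨_, g.measurableSet_fiber (x i).1, rfl⟩),
      ENNReal.ofReal_prod_of_nonneg (fun _ _ => wt_nonneg _ _ _ _)]
    refine Finset.prod_congr rfl fun i _ => ?_
    rw [wt, Set.univ_inter, hμ, ← (hd i).map_eq, ofReal_measureReal,
      Measure.map_apply (hm i) (g.measurableSet_fiber _)]
  refine (measure_mono hsub).trans ((measure_biUnion_finset_le _ _).trans (le_of_eq ?_))
  rw [E_eq_sum, ENNReal.ofReal_sum_of_nonneg (fun x _ => mul_nonneg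
    (Finset.prod_nonneg fun _ _ => wt_nonneg _ _ _ _) (ind_nonneg _)), Finset.sum_filter]
  refine Finset.sum_congr rfl fun x _ => ?_
  rw [add_zero]
  by_cases h : bad x
  · rw [if_pos h, ind_pos h, mul_one, hev]
  · rw [if_neg h, ind_neg h, mul_zero, ENNReal.ofReal_zero]

lemma exists_pos_lb {ι : Type} (s : Finset ι) (g : ι → ℝ) (h : ∀ i ∈ s, 0 < g i) :
    ∃ d > (0 : ℝ), ∀ i ∈ s, d ≤ g i := by
  classical
  induction s using Finset.induction_on with
  | empty => exact ⟨1, one_pos, by simp⟩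
  | insert a s _ ih =>
    obtain ⟨d, hd, h2⟩ := ih fun i hi => h i (Finset.mem_insert_of_mem hi)
    refine ⟨min d (g a), lt_min hd (h a (Finset.mem_insert_self _ _)), fun i hi => ?_⟩
    rcases Finset.mem_insert.1 hi with rfl | hi
    · exact min_le_right _ _
    · exact (min_le_left _ _).trans (h2 i hi)

lemma mix {A : Type} [Fintype A] (T : Finset ℂ) (hT : 0 < T.card) (p : ℂ → A → ℝ) (w : A → ℝ)
    (y : A → ℂ) (d c₀ R φ : ℝ) (hd : 0 < d) (hφ : 1 / (T.card : ℝ) ≤ φ)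
    (h0 : ∀ x ∈ T, ∀ a, 0 ≤ p x a) (h1 : ∀ x ∈ T, ∑ a, p x a = 1)
    (h2 : ∀ x ∈ T, ∀ a, c₀ * p x a ≤ w a) (h3 : ∀ x ∈ T, ∀ a, p x a ≠ 0 → ‖y a - x‖ ≤ 2 * d)
    (h4 : ∀ x ∈ T, 8 * d ≤ ‖x‖ ∧ ‖x‖ + 2 * d ≤ R)
    (h5 : ∀ x ∈ T, ∀ x' ∈ T, x ≠ x' → 8 * d ≤ ‖x - x'‖) :
    ∃ π : A → ℝ, (∀ a, 0 ≤ π a) ∧ ∑ a, π a = 1 ∧ (∀ a, c₀ * π a ≤ w a) ∧
      (∀ a, π a ≠ 0 → d ≤ ‖y a‖ ∧ ‖y a‖ ≤ R) ∧
      ∀ ζ : ℂ, ∑ a, π a * ind (‖y a - ζ‖ ≤ d) ≤ φ := by
  classical
  have hM : (0 : ℝ) < T.card := by exact_mod_cast hT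
  refine ⟨fun a => 1 / (T.card : ℝ) * ∑ x ∈ T, p x a, fun a => ?_, ?_, fun a => ?_,
    fun a ha => ?_, fun ζ => ?_⟩
  · exact mul_nonneg (by positivity) (Finset.sum_nonneg fun x hx => h0 x hx a)
  · rw [← Finset.mul_sum, Finset.sum_comm, Finset.sum_congr rfl h1]
    simp only [Finset.sum_const, nsmul_eq_mul, mul_one]
    field_simp
  · have : ∑ x ∈ T, c₀ * p x a ≤ ∑ _x ∈ T, w a := Finset.sum_le_sum fun x hx => h2 x hx a
    rw [Finset.sum_const, nsmul_eq_mul, ← Finset.mul_sum] at this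
    calc c₀ * (1 / (T.card : ℝ) * ∑ x ∈ T, p x a) = (c₀ * ∑ x ∈ T, p x a) / T.card := by ring
      _ ≤ w a := by rw [div_le_iff₀ hM]; linarith
  · obtain ⟨x, hx, hp⟩ := Finset.exists_ne_zero_of_sum_ne_zero (right_ne_zero_of_mul ha)
    have e1 := h3 x hx a hp
    have e2 := h4 x hx
    have e3 : ‖x‖ ≤ ‖y a‖ + ‖y a - x‖ := by
      have := norm_sub_le (y a) (y a - x)
      rwa [sub_sub_cancel] at this
    have e4 : ‖y a‖ ≤ ‖y a - x‖ + ‖x‖ := by
      have := norm_add_le (y a - x) x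
      rwa [sub_add_cancel] at this
    constructor <;> linarith [e2.1, e2.2]
  · have e1 : ∀ x ∈ T, ∑ a, p x a * ind (‖y a - ζ‖ ≤ d) ≤
        if ‖x - ζ‖ ≤ 3 * d then 1 else 0 := by
      intro x hx
      split_ifs with h
      · rw [← h1 x hx]
        exact Finset.sum_le_sum fun a _ => mul_le_of_le_one_right (h0 x hx a) (ind_le_one _)
      · refine le_of_eq (Finset.sum_eq_zero fun a _ => ?_)
        by_cases hp : p x a = 0
        · rw [hp, zero_mul]
        · rw [ind_neg, mul_zero]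
          intro h'
          have e2 := h3 x hx a hp
          have e3 := norm_sub_le (y a - ζ) (y a - x)
          rw [show y a - ζ - (y a - x) = x - ζ by ring] at e3
          exact h (by linarith)
    have e2 : ∑ x ∈ T, (if ‖x - ζ‖ ≤ 3 * d then (1 : ℝ) else 0) ≤ 1 := by
      rw [Finset.sum_boole]
      have : (T.filter fun x => ‖x - ζ‖ ≤ 3 * d).card ≤ 1 := by
        refine Finset.card_le_one.2 fun a ha b hb => ?_
        by_contra hne
        rw [Finset.mem_filter] at ha hb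
        have e3 := h5 a ha.1 b hb.1 hne
        have e4 := norm_sub_le (a - ζ) (b - ζ)
        rw [show a - ζ - (b - ζ) = a - b by ring] at e4
        linarith [ha.2, hb.2]
      exact_mod_cast this
    calc ∑ a, (1 / (T.card : ℝ) * ∑ x ∈ T, p x a) * ind (‖y a - ζ‖ ≤ d)
        = 1 / (T.card : ℝ) * ∑ x ∈ T, ∑ a, p x a * ind (‖y a - ζ‖ ≤ d) := by
          rw [Finset.sum_comm, Finset.mul_sum]
          refine Finset.sum_congr rfl fun a _ => ?_
          rw [mul_assoc, Finset.sum_mul]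
      _ ≤ 1 / (T.card : ℝ) * 1 :=
          mul_le_mul_of_nonneg_left ((Finset.sum_le_sum e1).trans e2) (by positivity)
      _ ≤ φ := by rw [mul_one]; exact hφ

lemma spread (μ : Measure ℂ) [IsProbabilityMeasure μ] (hB : ¬ ∃ S : Finset ℂ, μ (S : Set ℂ)ᶜ = 0)
    (f : ℕ → SimpleFunc ℂ ℂ) (hf : ∀ z, Tendsto (fun m => f m z) atTop (𝓝 z)) (φ : ℝ)
    (hφ : 0 < φ) :
    ∃ d > (0 : ℝ), ∃ c₀ > (0 : ℝ), ∃ R > (0 : ℝ), ∃ N₀ : ℕ, ∀ m ≥ N₀,
      ∃ π : (f m).range → ℝ, (∀ a, 0 ≤ π a) ∧ ∑ a, π a = 1 ∧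
        (∀ a, c₀ * π a ≤ wt μ (f m) Set.univ a) ∧
        (∀ a, π a ≠ 0 → d ≤ ‖a.1‖ ∧ ‖a.1‖ ≤ R) ∧
        ∀ ζ : ℂ, ∑ a, π a * ind (‖a.1 - ζ‖ ≤ d) ≤ φ := by
  classical
  have hinf : μ.support.Infinite := fun h =>
    hB ⟨h.toFinset, by rw [h.coe_toFinset]; exact Measure.measure_compl_support⟩
  obtain ⟨M, hM⟩ := exists_nat_one_div_lt hφ
  obtain ⟨T, hT, hc⟩ := (hinf.sdiff (Set.finite_singleton 0)).exists_subset_card_eq (M + 1)
  obtain ⟨d, hd, hsep⟩ := exists_pos_lb (insert 0 T).offDiag (fun q => ‖q.1 - q.2‖ / 8)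
    (fun q hq => div_pos (norm_pos_iff.2 (sub_ne_zero.2 (Finset.mem_offDiag.1 hq).2.2))
      (by norm_num))
  let H : ℕ → Set ℂ := fun N => {z | ∀ m ≥ N, ‖f m z - z‖ ≤ d}
  have hN : ∀ x ∈ T, ∃ N, μ (Metric.ball x d ∩ H N) ≠ 0 := by
    intro x hx
    by_contra hcon
    push Not at hcon
    have h1 : Metric.ball x d ⊆ ⋃ N, Metric.ball x d ∩ H N := by
      intro z hz
      obtain ⟨N, hN⟩ := Metric.tendsto_atTop.1 (hf z) d hd
      exact Set.mem_iUnion.2 ⟨N, hz, fun m hm => by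
        have := hN m hm
        rw [dist_eq_norm] at this
        exact this.le⟩
    have h2 := measure_mono_null h1 (measure_iUnion_null hcon)
    have h3 := (Measure.mem_support_iff_forall x).1 (hT hx).1 _ (Metric.ball_mem_nhds x hd)
    exact h3.ne' h2
  choose! N hN using hN
  let G : ℂ → Set ℂ := fun x => Metric.ball x d ∩ H (N x)
  have hG : ∀ x ∈ T, 0 < μ.real (G x) := fun x hx =>
    ENNReal.toReal_pos (hN x hx) (measure_ne_top _ _)
  obtain ⟨c₀, hc₀, hc₁⟩ := exists_pos_lb T (fun x => μ.real (G x)) hG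
  refine ⟨d, hd, c₀, hc₀, ∑ x ∈ T, ‖x‖ + 2 * d, ?_, T.sup N, fun m hm => ?_⟩
  · have : 0 ≤ ∑ x ∈ T, ‖x‖ := Finset.sum_nonneg fun _ _ => norm_nonneg _
    linarith
  refine mix T (by omega) (fun x a => wt μ (f m) (G x) a / μ.real (G x)) _ Subtype.val d c₀ _ φ hd
    (by rw [hc]; push_cast; exact hM.le) (fun x hx a => ?_) (fun x hx => ?_) (fun x hx a => ?_)
    (fun x hx a ha => ?_) (fun x hx => ⟨?_, ?_⟩) (fun x hx x' hx' hne => ?_)
  · exact div_nonneg measureReal_nonneg measureReal_nonneg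
  · rw [← Finset.sum_div, wt_sum, div_self (hG x hx).ne']
  · have e1 : wt μ (f m) (G x) a ≤ wt μ (f m) Set.univ a :=
      measureReal_mono (Set.inter_subset_inter_left _ (Set.subset_univ _))
    have e2 : 0 ≤ wt μ (f m) (G x) a := measureReal_nonneg
    have e3 := hc₁ x hx
    have e4 := hG x hx
    rw [← mul_div_assoc, div_le_iff₀ e4]
    nlinarith
  · have e1 : wt μ (f m) (G x) a ≠ 0 := fun h => ha (by rw [h, zero_div])
    obtain ⟨z, ⟨hz1, hz2⟩, hz3⟩ := nonempty_of_measureReal_ne_zero e1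
    have e2 : f m z = a.1 := hz3
    have e3 := hz2 m ((Finset.le_sup (f := N) hx).trans hm)
    rw [Metric.mem_ball, dist_eq_norm] at hz1
    have e4 := norm_add_le (f m z - z) (z - x)
    rw [sub_add_sub_cancel, e2] at e4
    rw [e2] at e3
    linarith
  · have := hsep (x, 0) (Finset.mem_offDiag.2 ⟨Finset.mem_insert_of_mem hx,
      Finset.mem_insert_self _ _, (hT hx).2⟩)
    simp only [sub_zero] at this
    linarith
  · have := Finset.single_le_sum (f := fun x : ℂ => ‖x‖) (fun _ _ => norm_nonneg _) hx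
    linarith
  · have := hsep (x, x') (Finset.mem_offDiag.2 ⟨Finset.mem_insert_of_mem hx,
      Finset.mem_insert_of_mem hx', hne⟩)
    simp only at this
    linarith

lemma ev_le {k : ℕ → ℕ} (hk : Tendsto (fun n : ℕ => (k n : ℝ) / (n : ℝ)) atTop (𝓝 0)) {γ : ℝ}
    (hγ : 0 < γ) : ∀ᶠ n : ℕ in atTop, (k n : ℝ) ≤ γ * n := by
  filter_upwards [hk.eventually (gt_mem_nhds hγ), eventually_gt_atTop 0] with n h1 h2
  have : (0 : ℝ) < n := by exact_mod_cast h2
  rw [div_lt_iff₀ this] at h1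
  exact h1.le

theorem red (h1 : Pool.Agent.H222Z.ES.FinI) (h2 : Pool.Agent.H222Z.ES.FinII) :
    ∀ (Ω : Type) [MeasurableSpace Ω] (P : Measure Ω) [IsProbabilityMeasure P]
      (Y : ℕ → Ω → ℂ),
      (∀ i, Measurable (Y i)) →
      iIndepFun Y P →
      (∀ i, IdentDistrib (Y i) (Y 0) P P) →
      (¬ ∃ c : ℂ, ∀ᵐ ω ∂P, Y 0 ω = c) →
      ∀ (k : ℕ → ℕ),
        Tendsto (fun n : ℕ => (k n : ℝ) / (n : ℝ)) atTop (𝓝 0) →
        ∀ ε : ℝ, 0 < ε →
          Tendsto
            (fun n : ℕ =>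
              P {ω | ‖∑ s ∈ (Finset.range n).powersetCard (k n), ∏ i ∈ s, Y i ω‖
                    ≤ Real.exp (-(ε * (n : ℝ)))})
            atTop (𝓝 0) := by
  classical
  intro Ω _ P _ Y hm hi hd hnd k hk ε hε
  set μ := P.map (Y 0) with hμ
  have : IsProbabilityMeasure μ := Measure.isProbabilityMeasure_map (hm 0).aemeasurable
  rw [ENNReal.tendsto_nhds_zero]
  intro e he
  obtain ⟨η, -, hη, hηe⟩ := ENNReal.lt_iff_exists_real_btwn.1 he
  rw [ENNReal.ofReal_pos] at hη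
  have hsum : ∀ g : SimpleFunc ℂ ℂ, ∑ a, wt μ g Set.univ a = 1 := fun g => by
    rw [wt_sum, probReal_univ]
  by_cases hA : ∃ S : Finset ℂ, μ (S : Set ℂ)ᶜ = 0
  · obtain ⟨S, hS⟩ := hA
    let g : SimpleFunc ℂ ℂ :=
      { toFun := fun z => if z ∈ (S : Set ℂ) then z else 0
        measurableSet_fiber' := fun a => (measurableSet_singleton a).preimage
          (Measurable.ite S.measurableSet measurable_id measurable_const)
        finite_range' := (S.finite_toSet.insert 0).subset (by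
          rintro _ ⟨z, rfl⟩
          by_cases h : z ∈ (S : Set ℂ)
          · simp only [if_pos h]; exact Or.inr h
          · simp only [if_neg h]; exact Or.inl rfl) }
    have hg : ∀ᵐ z ∂μ, g z = z := by
      have : ∀ᵐ z ∂μ, z ∈ (S : Set ℂ) := hS
      filter_upwards [this] with z hz
      exact if_pos hz
    have hgY : ∀ᵐ ω ∂P, ∀ i, g (Y i ω) = Y i ω := by
      rw [ae_all_iff]
      intro i
      refine ae_of_ae_map (p := fun z => g z = z) (hm i).aemeasurable ?_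
      rw [(hd i).map_eq]
      exact hg
    have hab : ∃ a b : g.range, 0 < wt μ g Set.univ a ∧ 0 < wt μ g Set.univ b ∧ a.1 ≠ b.1 := by
      by_contra hcon
      push Not at hcon
      obtain ⟨a, -, ha⟩ := Finset.exists_ne_zero_of_sum_ne_zero ((hsum g).trans_ne one_ne_zero)
      have ha' : 0 < wt μ g Set.univ a := lt_of_le_of_ne measureReal_nonneg ha.symm
      have h3 : ∀ᵐ z ∂μ, ∀ b : g.range, b.1 ≠ a.1 → g z ≠ b.1 := by
        rw [ae_all_iff]
        intro b
        by_cases hb : b.1 = a.1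
        · exact Eventually.of_forall fun z h => absurd hb h
        · have h4 : wt μ g Set.univ b = 0 := by
            by_contra h5
            exact hb (hcon b a (lt_of_le_of_ne measureReal_nonneg (Ne.symm h5)) ha')
          rw [wt, Set.univ_inter, measureReal_eq_zero_iff] at h4
          have h6 : ∀ᵐ z ∂μ, z ∉ g ⁻¹' {b.1} := measure_eq_zero_iff_ae_notMem.1 h4
          filter_upwards [h6] with z hz _
          exact hz
      refine hnd ⟨a.1, ae_of_ae_map (p := fun z => z = a.1) (hm 0).aemeasurable ?_⟩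
      filter_upwards [hg, h3] with z hz1 hz2
      by_contra h7
      exact hz2 ⟨g z, g.mem_range_self z⟩ (by rw [← hz1] at h7; exact h7) rfl
    obtain ⟨c, hc, γ, hγ, n₀, hn⟩ := h1 g.range (wt μ g Set.univ) Subtype.val
      (fun _ => measureReal_nonneg) (hsum g) hab η hη
    have hexp : Tendsto (fun n : ℕ => Real.exp (-(ε * (n : ℝ)))) atTop (𝓝 0) :=
      Real.tendsto_exp_neg_atTop_nhds_zero.comp
        (tendsto_natCast_atTop_atTop.const_mul_atTop hε)
    filter_upwards [ev_le hk hγ, eventually_ge_atTop n₀, hexp.eventually (gt_mem_nhds hc)]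
      with n e1 e2 e3
    refine le_trans (measure_mono_ae ?_) ((transfer P Y hm hi hd g n (k n) c).trans
      ((ENNReal.ofReal_le_ofReal (hn n e2 _ e1)).trans hηe.le))
    filter_upwards [hgY] with ω hω h
    change ‖ek (fun i => g (Y i ω)) n (k n)‖ < c
    simp only [hω]
    exact lt_of_le_of_lt h e3
  · let f : ℕ → SimpleFunc ℂ ℂ := fun m =>
      SimpleFunc.approxOn id measurable_id Set.univ 0 (Set.mem_univ _) m
    have hf : ∀ z, Tendsto (fun m => f m z) atTop (𝓝 z) := fun z =>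
      SimpleFunc.tendsto_approxOn measurable_id (Set.mem_univ _) (by simp)
    obtain ⟨φ, hφ, h3⟩ := h2 η hη
    obtain ⟨d, hd0, c₀, hc₀, R, hR, N₀, hN⟩ := spread μ hA f hf φ hφ
    obtain ⟨γ, hγ, n₀, hn⟩ := h3 ε hε R hR c₀ hc₀ d hd0 d hd0
    filter_upwards [ev_le hk hγ, eventually_ge_atTop n₀] with n e1 e2
    let D : ℕ → Set Ω := fun N =>
      {ω | ∀ m ≥ N, ‖ek (fun i => f m (Y i ω)) n (k n)‖ < 2 * Real.exp (-(ε * n))}
    have hmono : Monotone D := fun a b hab ω hω m hm' => hω m (hab.trans hm')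
    have hD : ∀ N, P (D N) ≤ e := by
      intro N
      obtain ⟨π, p1, p2, p3, p4, p5⟩ := hN (max N N₀) (le_max_right _ _)
      refine le_trans (measure_mono fun ω hω => hω _ (le_max_left N N₀))
        ((transfer P Y hm hi hd (f (max N N₀)) n (k n) _).trans
          ((ENNReal.ofReal_le_ofReal ?_).trans hηe.le))
      exact hn _ _ π Subtype.val p1 (hsum _) p2 p3 p4 p5 n e2 _ e1
    refine le_trans (measure_mono (t := ⋃ N, D N) fun ω hω => ?_) ?_
    · have ht : Tendsto (fun m => ‖ek (fun i => f m (Y i ω)) n (k n)‖) atTop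
          (𝓝 ‖ek (fun i => Y i ω) n (k n)‖) :=
        (tendsto_finsetSum _ fun s _ => tendsto_finsetProd _ fun i _ => hf _).norm
      have hlt : ‖ek (fun i => Y i ω) n (k n)‖ < 2 * Real.exp (-(ε * n)) := by
        have h4 : ‖ek (fun i => Y i ω) n (k n)‖ ≤ Real.exp (-(ε * n)) := hω
        linarith [Real.exp_pos (-(ε * n))]
      obtain ⟨N, hN'⟩ := eventually_atTop.1 (ht.eventually (gt_mem_nhds hlt))
      exact Set.mem_iUnion.2 ⟨N, hN'⟩
    · rw [hmono.measure_iUnion]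
      exact iSup_le hD

end Pool.Agent.H325Z.ES
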